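import Pool.Agent.Q128.EternalFan

/-!
# Bob may need six rounds in the eternal vertex colouring game

The game is defined in `Pool.Agent.Q128.EternalDefs` (`Legal`, `play`, `nextPicked`, `nextRounds`,
`BobWins`, `AliceWins`, `eternalNumber`, `rounds`); the fan is defined in `Pool.Agent.Q128.EternalFan`.
-/

set_option autoImplicit false

namespace Pool.Agent.Results.MP_16080b_co.FanSixRounds

open SimpleGraph Q128.Eternal

theorem bob {k r : ℕ} {T : List (List ℕ)} (hT : T.all (checkW nbr k T) = true)
    (hmem : [0, r, 0, 0, 0, 0, 0] ∈ T) :
    BobWins fan false r (fun _ => none : Fin 5 → Option (Fin k)) ∅ :=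
  table_wins isNbr hT _ false r _ _ le_rfl (by rw [start_enc]; exact hmem)

theorem mem_six : 6 ∈ {r | BobWins fan false r (fun _ => none : Fin 5 → Option (Fin 5)) ∅} :=
  bob check5 (by decide +kernel)

theorem not_five : ¬ BobWins fan false 5 (fun _ => none : Fin 5 → Option (Fin 5)) ∅ :=
  table_alive isNbr checkA5 _ false 5 _ _ le_rfl (by rw [start_enc]; decide +kernel)

theorem alice_six : AliceWins fan 6 := alice_of_card (by rw [Fintype.card_fin]; norm_num)

/-- Let `G` be the fan (a path with four vertices and one vertex adjacent to all of them). Then
`χ_g^∞(G) = 6`, and with `5` colours Bob can guarantee his win during the first six rounds but not during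
the first five: `r(G, 5) = 6`. -/
theorem result : eternalNumber fan = 6 ∧ rounds fan 5 = 6 := by
  constructor
  · apply le_antisymm
    · exact Nat.sInf_le alice_six
    · have hmem : AliceWins fan (eternalNumber fan) :=
        Nat.sInf_mem (s := {k | AliceWins fan k}) ⟨6, alice_six⟩
      by_contra hlt
      have h5 : eternalNumber fan ≤ 5 := by omega
      revert hmem
      generalize eternalNumber fan = k at h5
      intro hmem
      interval_cases k
      · exact not_alice hmem _ (bob (r := 1) check0 (by decide +kernel))
      · exact not_alice hmem _ (bob (r := 1) check1 (by decide +kernel))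
      · exact not_alice hmem _ (bob (r := 1) check2 (by decide +kernel))
      · exact not_alice hmem _ (bob (r := 2) check3 (by decide +kernel))
      · exact not_alice hmem _ (bob (r := 2) check4 (by decide +kernel))
      · exact not_alice hmem _ (bob (r := 6) check5 (by decide +kernel))
  · apply le_antisymm
    · exact Nat.sInf_le mem_six
    · have hmem : BobWins fan false (rounds fan 5) (fun _ => none : Fin 5 → Option (Fin 5)) ∅ :=
        Nat.sInf_mem (s := {r | BobWins fan false r (fun _ => none : Fin 5 → Option (Fin 5)) ∅})
          ⟨6, mem_six⟩
      by_contra hlt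
      exact not_five (wins_mono hmem 5 (by omega))

end Pool.Agent.Results.MP_16080b_co.FanSixRounds
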